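import Pool.Agent.Y850.SH.Grow

set_option autoImplicit false

/-!
# Random regular graphs and neighbourhoods of growing radius

Full answer (yes, with `c = 1/6`) to MP_ccfaf0_pr in a stronger form: radii growing up to
`(1/2 - δ) log n / log d`. The definitions `Reg`, `nbhd`, `NbhdIso`, `Reconstructable` and `regProb`
are in `Pool/Agent/H336R3/ShotDefs.lean`, the definition of `ManyTwins` is in
`Pool/Agent/Y850/SH/Ent.lean`.
-/

namespace Pool.Agent.Results.MP_ccfaf0_pr.GrowingRadius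

open Filter Topology Pool.Agent.H336R3.Shot Pool.Agent.Y850.SH

/-- (a) The question, with `c = 1/6`: if `n^ε ≤ d ≤ n^(1/6-ε)`, `n → ∞` and `n d` is even, the
random `d`-regular graph `Γ` on `n` vertices is a.a.s. not reconstructable from its
`3`-neighbourhoods; moreover, for every `0 < η < 1`, there are a.a.s. at least
`(number of d-regular graphs on n vertices)^(1-η)` pairwise non-isomorphic `d`-regular graphs with
the same `3`-neighbourhoods, vertex by vertex.

(b) The same for the `r`-neighbourhoods for all sequences of radii `r = r_n ≥ 1`, bounded or not,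
with `r log d ≤ (1/2-δ) log n`, if `d ≥ (6 log n)^(2/δ)` (`0 < δ < 1/2` fixed).

(c) The same under the condition `r^4 (6 r d)^(2r) / n → 0` and `d → ∞`. -/
theorem result :
    (∀ ε : ℝ, 0 < ε → ∀ n d : ℕ → ℕ, Tendsto n atTop atTop →
      (∀ᶠ k in atTop, Even (n k * d k)) →
      (∀ᶠ k in atTop, (n k : ℝ) ^ ε ≤ d k ∧ (d k : ℝ) ≤ (n k : ℝ) ^ (1 / 6 - ε)) →
        Tendsto (fun k => regProb (n k) (d k) (fun G => ¬ Reconstructable 3 G)) atTop (𝓝 1) ∧
        ∀ η : ℝ, 0 < η → η < 1 →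
          Tendsto (fun k => regProb (n k) (d k) (fun G => ManyTwins 3 (d k) G
            (({K : SimpleGraph (Fin (n k)) | Reg K (d k)}.ncard : ℝ) ^ (1 - η)))) atTop (𝓝 1)) ∧
    (∀ δ : ℝ, 0 < δ → δ < 1 / 2 → ∀ n d r : ℕ → ℕ, Tendsto n atTop atTop →
      (∀ᶠ k in atTop, Even (n k * d k)) → (∀ᶠ k in atTop, 1 ≤ r k) →
      (∀ᶠ k in atTop, (6 * Real.log (n k)) ^ (2 / δ) ≤ (d k : ℝ)) →
      (∀ᶠ k in atTop, (r k : ℝ) * Real.log (d k) ≤ (1 / 2 - δ) * Real.log (n k)) →
        Tendsto (fun k => regProb (n k) (d k) (fun G => ¬ Reconstructable (r k) G)) atTop (𝓝 1) ∧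
        ∀ η : ℝ, 0 < η → η < 1 →
          Tendsto (fun k => regProb (n k) (d k) (fun G => ManyTwins (r k) (d k) G
            (({K : SimpleGraph (Fin (n k)) | Reg K (d k)}.ncard : ℝ) ^ (1 - η)))) atTop (𝓝 1)) ∧
    (∀ n d r : ℕ → ℕ, Tendsto n atTop atTop → Tendsto d atTop atTop →
      (∀ᶠ k in atTop, Even (n k * d k)) → (∀ᶠ k in atTop, 1 ≤ r k) →
      Tendsto (fun k => (r k : ℝ) ^ 4 * (6 * (r k : ℝ) * (d k : ℝ)) ^ (2 * r k) / (n k : ℝ)) atTop
        (𝓝 0) →
        Tendsto (fun k => regProb (n k) (d k) (fun G => ¬ Reconstructable (r k) G)) atTop (𝓝 1) ∧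
        ∀ η : ℝ, 0 < η → η < 1 →
          Tendsto (fun k => regProb (n k) (d k) (fun G => ManyTwins (r k) (d k) G
            (({K : SimpleGraph (Fin (n k)) | Reg K (d k)}.ncard : ℝ) ^ (1 - η)))) atTop (𝓝 1)) := by
  have key : ∀ n d r : ℕ → ℕ, Tendsto n atTop atTop → Tendsto d atTop atTop →
      (∀ᶠ k in atTop, Even (n k * d k)) → (∀ᶠ k in atTop, 1 ≤ r k) →
      Tendsto (fun k => (r k : ℝ) ^ 4 * (6 * (r k : ℝ) * (d k : ℝ)) ^ (2 * r k) / (n k : ℝ)) atTop
        (𝓝 0) →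
        Tendsto (fun k => regProb (n k) (d k) (fun G => ¬ Reconstructable (r k) G)) atTop (𝓝 1) ∧
        ∀ η : ℝ, 0 < η → η < 1 →
          Tendsto (fun k => regProb (n k) (d k) (fun G => ManyTwins (r k) (d k) G
            (({K : SimpleGraph (Fin (n k)) | Reg K (d k)}.ncard : ℝ) ^ (1 - η)))) atTop
              (𝓝 1) := by
    intro n d r hn hd hev hr hlim
    refine ⟨not_rec_grow n d r hn hev (hd.eventually_ge_atTop 256) hr hlim, ?_⟩
    intro η hη hη1
    have hdr : Tendsto (fun k => (d k : ℝ)) atTop atTop := tendsto_natCast_atTop_atTop.comp hd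
    have h := many_tendsto hη hη1 n d r hn hev
      ((hdr.const_mul_atTop hη).eventually_ge_atTop 256) hr (cst_lim n d r hr hlim)
    simp only [RG_card_eq] at h
    exact h
  refine ⟨?_, ?_, key⟩
  · intro ε hε n d hn hev h
    have hNr : Tendsto (fun k => (n k : ℝ)) atTop atTop := tendsto_natCast_atTop_atTop.comp hn
    have hlo : Tendsto (fun k => (n k : ℝ) ^ ε) atTop atTop := (tendsto_rpow_atTop hε).comp hNr
    have hdr : Tendsto (fun k => (d k : ℝ)) atTop atTop :=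
      tendsto_atTop_mono' _ (h.mono fun k hk => hk.1) hlo
    have hd : Tendsto d atTop atTop := tendsto_natCast_atTop_iff.1 hdr
    refine key n d (fun _ => 3) hn hd hev (Eventually.of_forall fun _ => by norm_num) ?_
    have h1 : Tendsto (fun k => (3 : ℝ) ^ 4 * 18 ^ 6 * (n k : ℝ) ^ (-(6 * ε))) atTop (𝓝 0) := by
      have h2 := ((tendsto_rpow_neg_atTop (show 0 < 6 * ε by positivity)).comp hNr).const_mul
        ((3 : ℝ) ^ 4 * 18 ^ 6)
      rwa [mul_zero] at h2
    refine squeeze_zero' (Eventually.of_forall fun k => by positivity) ?_ h1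
    filter_upwards [h, hNr.eventually_gt_atTop 0] with k hk hk0
    rw [div_le_iff₀ hk0]
    have e1 : (d k : ℝ) ^ 6 ≤ (n k : ℝ) ^ (-(6 * ε)) * n k := by
      calc (d k : ℝ) ^ 6 ≤ ((n k : ℝ) ^ (1 / 6 - ε)) ^ 6 :=
            pow_le_pow_left₀ (by positivity) hk.2 _
        _ = (n k : ℝ) ^ ((1 / 6 - ε) * (6 : ℕ)) := by
            rw [← Real.rpow_natCast, ← Real.rpow_mul hk0.le]
        _ = (n k : ℝ) ^ (-(6 * ε) + 1) := by
            congr 1
            push_cast
            ring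
        _ = (n k : ℝ) ^ (-(6 * ε)) * n k := by
            rw [Real.rpow_add hk0, Real.rpow_one]
    have e2 : ((3 : ℕ) : ℝ) ^ 4 * (6 * ((3 : ℕ) : ℝ) * (d k : ℝ)) ^ (2 * 3) =
        (3 : ℝ) ^ 4 * 18 ^ 6 * (d k : ℝ) ^ 6 := by
      push_cast
      ring
    rw [e2, mul_assoc ((3 : ℝ) ^ 4 * 18 ^ 6)]
    exact mul_le_mul_of_nonneg_left e1 (by positivity)
  · intro δ hδ hδ' n d r hn hev hr hd hrd
    exact key n d r hn (log_D hδ n d hn hd) hev hr (log_lim hδ hδ' n d r hn hr hd hrd)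

end Pool.Agent.Results.MP_ccfaf0_pr.GrowingRadius
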